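import Pool.Agent.helper93.FR.All

/-!
Counting unitary fusion categories by total multiplicity: the contribution of the fusion rings.

There is a constant C such that the number of all fusion rings (any rank, not necessarily
commutative, on a labelled basis) with total multiplicity at most M is at most
exp (C * M^(7/8) * (log M)^2).  The statement below is the form used for counting categories:
whenever every object x of a collection 𝒞 has a fusion ring K x, and at most b objects of 𝒞 have
the same ring (for every ring of total multiplicity at most M), then at most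
exp (C * M^(7/8) * (log M)^2) * b objects have total multiplicity at most M.
For 𝒞 = the set of fusion rings and b = 1 this is the number of fusion rings; for 𝒞 = unitary
fusion categories up to unitary monoidal equivalence it reduces the question whether
u(N) = exp (o(N)) to the categories over a single fusion ring.
-/

namespace Pool.Agent.Results.MP_29f1cd_al.FusionRingCount

open BigOperators

/-- A fusion ring (unital based ring of finite rank) on the labelled basis X_0, ..., X_{r-1},
given by its structure constants X_i X_j = sum over k of N i j k X_k: associative, with unit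
X_o, and with an involution X_i to X_{d i} which is an anti-automorphism and for which X_o
occurs in X_i X_j with multiplicity one if j = d i and does not occur otherwise. -/
structure IsBasedRing {r : ℕ} (N : Fin r → Fin r → Fin r → ℕ) (o : Fin r) (d : Fin r → Fin r) :
    Prop where
  assoc : ∀ i j k l, ∑ m, N i j m * N m k l = ∑ m, N j k m * N i m l
  unit_left : ∀ i j, N o i j = if i = j then 1 else 0
  unit_right : ∀ i j, N i o j = if i = j then 1 else 0
  dual_dual : ∀ i, d (d i) = i
  dual_anti : ∀ i j k, N (d j) (d i) (d k) = N i j k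
  dual_unit : ∀ i j, N i j o = if j = d i then 1 else 0

/-- The structure constants R (the rank r and the array N) are those of a fusion ring. -/
def IsFusionRing (R : Σ r : ℕ, Fin r → Fin r → Fin r → ℕ) : Prop :=
  ∃ (o : Fin R.1) (d : Fin R.1 → Fin R.1), IsBasedRing R.2 o d

/-- The total multiplicity: the sum of all structure constants. -/
def totalMult (R : Σ r : ℕ, Fin r → Fin r → Fin r → ℕ) : ℕ := ∑ i, ∑ j, ∑ k, R.2 i j k

theorem isFusionRing_iff (R : Σ r : ℕ, Fin r → Fin r → Fin r → ℕ) :
    IsFusionRing R ↔ ∃ o st, Pool.Agent.helper93.FR.IsFusion R.2 o st := by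
  constructor
  · rintro ⟨o, d, h⟩
    exact ⟨o, d, h.dual_dual, h.unit_left, h.unit_right, h.assoc, h.dual_unit, h.dual_anti⟩
  · rintro ⟨o, d, h⟩
    exact ⟨o, d, h.assoc, h.one_left, h.one_right, h.invol, h.anti, h.dual⟩

/-- There is C such that for every collection 𝒞 of objects with fusion rings K x, every M >= 2
and every b: if every fusion ring of total multiplicity at most M is the ring of at most b
objects, then at most exp (C * M^(7/8) * (log M)^2) * b objects have total multiplicity at
most M. -/
theorem result : ∃ C : ℝ, ∀ (𝒞 : Type*) (K : 𝒞 → Σ r : ℕ, Fin r → Fin r → Fin r → ℕ),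
    (∀ x, IsFusionRing (K x)) → ∀ M b : ℕ, 2 ≤ M →
    (∀ R, IsFusionRing R → totalMult R ≤ M →
      {x : 𝒞 | K x = R}.Finite ∧ {x : 𝒞 | K x = R}.ncard ≤ b) →
    {x : 𝒞 | totalMult (K x) ≤ M}.Finite ∧
      ({x : 𝒞 | totalMult (K x) ≤ M}.ncard : ℝ) ≤
        Real.exp (C * (M : ℝ) ^ (7 / 8 : ℝ) * (Real.log M) ^ 2) * b := by
  obtain ⟨C, hC⟩ := Pool.Agent.helper93.FR.asym_m
  refine ⟨C, fun 𝒞 K hK M b hM hfib => ?_⟩
  obtain ⟨hf, hc⟩ := hC M hM
  classical
  have hmem : ∀ R, R ∈ Pool.Agent.helper93.FR.FRall M ↔ IsFusionRing R ∧ totalMult R ≤ M := by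
    intro R
    show ((∃ o st, Pool.Agent.helper93.FR.IsFusion R.2 o st) ∧
      Pool.Agent.helper93.FR.total R.2 ≤ M) ↔ _
    rw [isFusionRing_iff]
    rfl
  have hset : {x : 𝒞 | totalMult (K x) ≤ M} = ⋃ R ∈ hf.toFinset, {x : 𝒞 | K x = R} := by
    ext x
    simp only [Set.mem_iUnion, Set.Finite.mem_toFinset, exists_prop]
    constructor
    · intro hx
      exact ⟨K x, (hmem _).2 ⟨hK x, hx⟩, rfl⟩
    · rintro ⟨R, hR, hx⟩
      have hx' : K x = R := hx
      show totalMult (K x) ≤ M
      rw [hx']
      exact ((hmem _).1 hR).2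
  have hfR : ∀ R ∈ hf.toFinset, {x : 𝒞 | K x = R}.Finite ∧ {x : 𝒞 | K x = R}.ncard ≤ b := by
    intro R hR
    rw [Set.Finite.mem_toFinset] at hR
    have := (hmem R).1 hR
    exact hfib R this.1 this.2
  have hfin : {x : 𝒞 | totalMult (K x) ≤ M}.Finite := by
    rw [hset]
    exact Set.Finite.biUnion (Finset.finite_toSet _) fun R hR => (hfR R hR).1
  refine ⟨hfin, ?_⟩
  have hcard : hfin.toFinset.card ≤ hf.toFinset.card * b := by
    have hsub : hfin.toFinset ⊆ hf.toFinset.biUnion
        (fun R => hfin.toFinset.filter fun x => K x = R) := by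
      intro x hx
      simp only [Finset.mem_biUnion, Finset.mem_filter]
      have hx2 := hx
      rw [Set.Finite.mem_toFinset] at hx2
      exact ⟨K x, by rw [Set.Finite.mem_toFinset]; exact (hmem _).2 ⟨hK x, hx2⟩, hx, rfl⟩
    refine (Finset.card_le_card hsub).trans (Finset.card_biUnion_le.trans ?_)
    have : ∀ R ∈ hf.toFinset, (hfin.toFinset.filter fun x => K x = R).card ≤ b := by
      intro R hR
      refine le_trans ?_ (hfR R hR).2
      rw [← Set.ncard_coe_finset]
      apply Set.ncard_le_ncard _ (hfR R hR).1
      intro x hx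
      have hx' := (Finset.mem_filter.1 (Finset.mem_coe.1 hx)).2
      exact hx'
    exact Finset.sum_le_card_nsmul _ _ b this
  have e1 : ({x : 𝒞 | totalMult (K x) ≤ M}.ncard) = hfin.toFinset.card :=
    Set.ncard_eq_toFinset_card _ _
  have e2 : (Pool.Agent.helper93.FR.FRall M).ncard = hf.toFinset.card :=
    Set.ncard_eq_toFinset_card _ _
  calc (({x : 𝒞 | totalMult (K x) ≤ M}.ncard : ℕ) : ℝ) = (hfin.toFinset.card : ℝ) := by rw [e1]
    _ ≤ ((hf.toFinset.card * b : ℕ) : ℝ) := by exact_mod_cast hcard
    _ = (hf.toFinset.card : ℝ) * b := by push_cast; rfl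
    _ ≤ Real.exp (C * (M : ℝ) ^ (7 / 8 : ℝ) * (Real.log M) ^ 2) * b := by
        rw [← e2]
        gcongr

end Pool.Agent.Results.MP_29f1cd_al.FusionRingCount
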