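import Pool.Agent.helper93.TV.L3

/-!
Quantitative Ocneanu rigidity for unitary fusion categories: an explicit bound for the number of
unitary fusion categories with a given fusion ring.

A unitary fusion category is given in skeletal form: a finite set of simple objects (labelled by
Fin r), an orthonormal basis (the vertices, labelled by Fin n) of the direct sum of all
multiplicity spaces Hom (a ⊗ b, c), so that n is the total multiplicity, and the unitary
F-symbols.  Equivalence: relabelling of the simple objects and unitary change of bases.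
-/

namespace Pool.Agent.Results.MP_29f1cd_al.OcneanuBound

open BigOperators Finset

/-- Data of a skeletal category: r simple objects, n vertices; the vertex v is a basis vector of
Hom (s1 v ⊗ s2 v, t v).  F α γ β δ, for α : a ⊗ b → e, γ : e ⊗ c → d, β : b ⊗ c → f,
δ : a ⊗ f → d, is the entry of the F-symbol F^{abc}_d with row (e, α, γ) and column (f, β, δ). -/
structure SkelCat where
  r : ℕ
  n : ℕ
  s1 : Fin n → Fin r
  s2 : Fin n → Fin r
  t : Fin n → Fin r
  F : Fin n → Fin n → Fin n → Fin n → ℂ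

namespace SkelCat

/-- The multiplicity of c in a ⊗ b. -/
def mult (C : SkelCat) (a b c : Fin C.r) : ℕ :=
  (univ.filter fun v => C.s1 v = a ∧ C.s2 v = b ∧ C.t v = c).card

/-- C is a unitary fusion category with unit object o and duality d: unit and dual objects for
the multiplicities; F is 0 when the types do not match; the F-symbols are unitary; pentagon and
triangle equations; every object is rigid (the F-symbol F^{a, d a, a}_a with both channels o is
not 0). -/
structure IsUFC (C : SkelCat) (o : Fin C.r) (d : Fin C.r → Fin C.r) : Prop where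
  unit_left : ∀ a b, C.mult o a b = if a = b then 1 else 0
  unit_right : ∀ a b, C.mult a o b = if a = b then 1 else 0
  dual_dual : ∀ a, d (d a) = a
  dual : ∀ a b, C.mult a b o = if b = d a then 1 else 0
  supp : ∀ α γ β δ, C.F α γ β δ ≠ 0 → C.t α = C.s1 γ ∧ C.t β = C.s2 δ ∧ C.s1 α = C.s1 δ ∧
    C.s2 α = C.s1 β ∧ C.s2 γ = C.s2 β ∧ C.t γ = C.t δ
  row : ∀ α γ α' γ', C.t α = C.s1 γ →
    ∑ β, ∑ δ, C.F α γ β δ * star (C.F α' γ' β δ) = if α = α' ∧ γ = γ' then 1 else 0
  col : ∀ β δ β' δ', C.t β = C.s2 δ →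
    ∑ α, ∑ γ, star (C.F α γ β δ) * C.F α γ β' δ' = if β = β' ∧ δ = δ' then 1 else 0
  pentagon : ∀ α γ ε β δ ζ, ∑ ν, C.F γ ε β ν * C.F α ν δ ζ =
    ∑ μ, ∑ ρ, ∑ σ, C.F α γ μ ρ * C.F ρ ε σ ζ * C.F μ σ β δ
  triangle : ∀ ρ l γ δ, C.s2 ρ = o → C.s1 l = o → C.s1 γ = C.s1 ρ → C.s2 γ = C.s2 l →
    C.F ρ γ l δ = if γ = δ then 1 else 0
  rigid : ∀ a η l η' ρ, C.s1 η = a → C.t η = o → C.s1 l = o → C.s2 l = a → C.s1 η' = d a →
    C.t η' = o → C.s1 ρ = a → C.s2 ρ = o → C.F η l η' ρ ≠ 0

/-- C is a skeletal unitary fusion category. -/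
def UFC (C : SkelCat) : Prop := ∃ o d, C.IsUFC o d

/-- The relabelling σ of the simple objects and the unitary matrix U (rows: vertices of C,
columns: vertices of C') form a unitary monoidal equivalence. -/
structure IsEquiv (C C' : SkelCat) (σ : Fin C.r ≃ Fin C'.r) (U : Fin C.n → Fin C'.n → ℂ) :
    Prop where
  supp : ∀ v w, U v w ≠ 0 →
    C'.s1 w = σ (C.s1 v) ∧ C'.s2 w = σ (C.s2 v) ∧ C'.t w = σ (C.t v)
  row : ∀ v v', ∑ w, U v w * star (U v' w) = if v = v' then 1 else 0
  col : ∀ w w', ∑ v, star (U v w) * U v w' = if w = w' then 1 else 0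
  comm : ∀ α γ β' δ', ∑ α', ∑ γ', U α α' * U γ γ' * C'.F α' γ' β' δ' =
    ∑ β, ∑ δ, C.F α γ β δ * U β β' * U δ δ'

/-- Unitary monoidal equivalence. -/
def Equivalent (C C' : SkelCat) : Prop := ∃ σ U, C.IsEquiv C' σ U

/-- b occurs in a product x_1 ⊗ ... ⊗ x_k (k ≥ 0) of objects of S (o is the unit object). -/
inductive Gen (C : SkelCat) (o : Fin C.r) (S : Set (Fin C.r)) : Fin C.r → Prop
  | unit : Gen C o S o
  | mul (v : Fin C.n) : Gen C o S (C.s1 v) → C.s2 v ∈ S → Gen C o S (C.t v)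

/-- The sum over x, y in X and all simple a, e of the square of the multiplicity of e in
x ⊗ a ⊗ y. -/
def kappa (C : SkelCat) (X : Finset (Fin C.r)) : ℕ :=
  ∑ x ∈ X, ∑ y ∈ X, ∑ a, ∑ e, (∑ b, C.mult x a b * C.mult b y e) ^ 2

/-- The fusion ring of C on the labelled basis. -/
def ring (C : SkelCat) : Σ r : ℕ, Fin r → Fin r → Fin r → ℕ := ⟨C.r, C.mult⟩

/-- The same data as a structure of the helper files. -/
def toTV (C : SkelCat) : Pool.Agent.helper93.TV.SkelCat := ⟨C.r, C.n, C.s1, C.s2, C.t, C.F⟩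

theorem isUFC_toTV {C : SkelCat} {o d} (h : C.IsUFC o d) : C.toTV.IsUFC o d :=
  ⟨h.unit_left, h.unit_right, h.dual_dual, h.dual, h.supp, h.row, h.col, h.pentagon,
    h.triangle, h.rigid⟩

theorem ufc_toTV {C : SkelCat} (h : C.UFC) : C.toTV.UFC := by
  obtain ⟨o, d, h⟩ := h
  exact ⟨o, d, isUFC_toTV h⟩

theorem of_equivalent_toTV {C C' : SkelCat} (h : C.toTV.Equivalent C'.toTV) :
    C.Equivalent C' := by
  obtain ⟨σ, U, h⟩ := h
  exact ⟨σ, U, ⟨h.supp, h.row, h.col, h.comm⟩⟩

theorem gen_toTV {C : SkelCat} {o : Fin C.r} {S : Set (Fin C.r)} {b : Fin C.r}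
    (h : C.Gen o S b) : Pool.Agent.helper93.TV.SkelCat.Gen C.toTV o S b := by
  induction h with
  | unit => exact Pool.Agent.helper93.TV.SkelCat.Gen.unit
  | mul v _ h2 ih =>
    exact Pool.Agent.helper93.TV.SkelCat.Gen.mul (C := C.toTV) (o := o) (S := S) v ih h2

end SkelCat

/-- Quantitative Ocneanu rigidity.  Let C be a unitary fusion category of total multiplicity at
most M, M ≥ 2, and let X be a set of simple objects which contains the unit object, is closed
under duality and generates C.  Then at most M ^ (24 * kappa X) pairwise inequivalent unitary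
fusion categories have the same fusion ring as C. -/
theorem result (C : SkelCat) (o : Fin C.r) (d : Fin C.r → Fin C.r) (X : Finset (Fin C.r))
    (M : ℕ) (hC : C.IsUFC o d) (ho : o ∈ X) (hd : ∀ x ∈ X, d x ∈ X) (hX : ∀ b, C.Gen o X b)
    (hn : C.n ≤ M) (hM : 2 ≤ M) (k : ℕ) (E : Fin k → SkelCat) (hE : ∀ i, (E i).UFC)
    (hr : ∀ i, (E i).ring = C.ring) (hne : ∀ i j, i ≠ j → ¬ (E i).Equivalent (E j)) :
    k ≤ M ^ (24 * C.kappa X) :=
  Pool.Agent.helper93.TV.L3_AA C.toTV o d X M (SkelCat.isUFC_toTV hC) ho hd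
    (fun b => SkelCat.gen_toTV (hX b)) hn hM k (fun i => (E i).toTV)
    (fun i => SkelCat.ufc_toTV (hE i)) hr
    (fun i j hij h => hne i j hij (SkelCat.of_equivalent_toTV h))

end Pool.Agent.Results.MP_29f1cd_al.OcneanuBound
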