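import Pool.Agent.helper93.TV.L3

/-!
Counting unitary fusion categories by total multiplicity: the class of the categories which are
generated by simple objects of small dimension.

A unitary fusion category is given in skeletal form: a finite set of simple objects (labelled by
Fin r), an orthonormal basis (the vertices, labelled by Fin n) of the direct sum of all
multiplicity spaces Hom (a ⊗ b, c), so that n is the total multiplicity, and the unitary
F-symbols.  Equivalence: relabelling of the simple objects and unitary change of bases.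
-/

namespace Pool.Agent.Results.MP_29f1cd_al.SmallGenerators

open BigOperators Finset

/-- Data of a skeletal category: r simple objects, n vertices; the vertex v is a basis vector of
Hom (s1 v ⊗ s2 v, t v).  F α γ β δ, for α : a ⊗ b → e, γ : e ⊗ c → d, β : b ⊗ c → f,
δ : a ⊗ f → d, is the entry of the F-symbol F^{abc}_d with row (e, α, γ) and column (f, β, δ). -/
structure SkelCat where
  r : ℕ
  n : ℕ
  s1 : Fin n → Fin r
  s2 : Fin n → Fin r
  t : Fin n → Fin r
  F : Fin n → Fin n → Fin n → Fin n → ℂ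

namespace SkelCat

/-- The multiplicity of c in a ⊗ b. -/
def mult (C : SkelCat) (a b c : Fin C.r) : ℕ :=
  (univ.filter fun v => C.s1 v = a ∧ C.s2 v = b ∧ C.t v = c).card

/-- C is a unitary fusion category with unit object o and duality d: unit and dual objects for
the multiplicities; F is 0 when the types do not match; the F-symbols are unitary; pentagon and
triangle equations; every object is rigid (the F-symbol F^{a, d a, a}_a with both channels o is
not 0). -/
structure IsUFC (C : SkelCat) (o : Fin C.r) (d : Fin C.r → Fin C.r) : Prop where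
  unit_left : ∀ a b, C.mult o a b = if a = b then 1 else 0
  unit_right : ∀ a b, C.mult a o b = if a = b then 1 else 0
  dual_dual : ∀ a, d (d a) = a
  dual : ∀ a b, C.mult a b o = if b = d a then 1 else 0
  supp : ∀ α γ β δ, C.F α γ β δ ≠ 0 → C.t α = C.s1 γ ∧ C.t β = C.s2 δ ∧ C.s1 α = C.s1 δ ∧
    C.s2 α = C.s1 β ∧ C.s2 γ = C.s2 β ∧ C.t γ = C.t δ
  row : ∀ α γ α' γ', C.t α = C.s1 γ →
    ∑ β, ∑ δ, C.F α γ β δ * star (C.F α' γ' β δ) = if α = α' ∧ γ = γ' then 1 else 0
  col : ∀ β δ β' δ', C.t β = C.s2 δ →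
    ∑ α, ∑ γ, star (C.F α γ β δ) * C.F α γ β' δ' = if β = β' ∧ δ = δ' then 1 else 0
  pentagon : ∀ α γ ε β δ ζ, ∑ ν, C.F γ ε β ν * C.F α ν δ ζ =
    ∑ μ, ∑ ρ, ∑ σ, C.F α γ μ ρ * C.F ρ ε σ ζ * C.F μ σ β δ
  triangle : ∀ ρ l γ δ, C.s2 ρ = o → C.s1 l = o → C.s1 γ = C.s1 ρ → C.s2 γ = C.s2 l →
    C.F ρ γ l δ = if γ = δ then 1 else 0
  rigid : ∀ a η l η' ρ, C.s1 η = a → C.t η = o → C.s1 l = o → C.s2 l = a → C.s1 η' = d a →
    C.t η' = o → C.s1 ρ = a → C.s2 ρ = o → C.F η l η' ρ ≠ 0

/-- C is a skeletal unitary fusion category. -/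
def UFC (C : SkelCat) : Prop := ∃ o d, C.IsUFC o d

/-- The relabelling σ of the simple objects and the unitary matrix U (rows: vertices of C,
columns: vertices of C') form a unitary monoidal equivalence. -/
structure IsEquiv (C C' : SkelCat) (σ : Fin C.r ≃ Fin C'.r) (U : Fin C.n → Fin C'.n → ℂ) :
    Prop where
  supp : ∀ v w, U v w ≠ 0 →
    C'.s1 w = σ (C.s1 v) ∧ C'.s2 w = σ (C.s2 v) ∧ C'.t w = σ (C.t v)
  row : ∀ v v', ∑ w, U v w * star (U v' w) = if v = v' then 1 else 0
  col : ∀ w w', ∑ v, star (U v w) * U v w' = if w = w' then 1 else 0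
  comm : ∀ α γ β' δ', ∑ α', ∑ γ', U α α' * U γ γ' * C'.F α' γ' β' δ' =
    ∑ β, ∑ δ, C.F α γ β δ * U β β' * U δ δ'

/-- Unitary monoidal equivalence. -/
def Equivalent (C C' : SkelCat) : Prop := ∃ σ U, C.IsEquiv C' σ U

/-- b occurs in a product x_1 ⊗ ... ⊗ x_k (k ≥ 0) of objects of S (o is the unit object). -/
inductive Gen (C : SkelCat) (o : Fin C.r) (S : Set (Fin C.r)) : Fin C.r → Prop
  | unit : Gen C o S o
  | mul (v : Fin C.n) : Gen C o S (C.s1 v) → C.s2 v ∈ S → Gen C o S (C.t v)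

/-- d is the Frobenius-Perron dimension: the positive character of the fusion ring. -/
def IsDim (C : SkelCat) (d : Fin C.r → ℝ) : Prop :=
  (∀ a, 0 < d a) ∧ ∀ a b,
    ∑ v ∈ univ.filter (fun v => C.s1 v = a ∧ C.s2 v = b), d (C.t v) = d a * d b

/-- There is z ≥ 1 such that the simple objects of Frobenius-Perron dimension at most z generate
C and r z^4 ≤ Y. -/
def Small (C : SkelCat) (Y : ℝ) : Prop := ∃ o d z, (∃ st, C.IsUFC o st) ∧ C.IsDim d ∧ 1 ≤ z ∧
  (∀ b, C.Gen o {a | d a ≤ z} b) ∧ (C.r : ℝ) * z ^ 4 ≤ Y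

/-- The same data as a structure of the helper files. -/
def toTV (C : SkelCat) : Pool.Agent.helper93.TV.SkelCat := ⟨C.r, C.n, C.s1, C.s2, C.t, C.F⟩

theorem isUFC_toTV {C : SkelCat} {o d} (h : C.IsUFC o d) : C.toTV.IsUFC o d :=
  ⟨h.unit_left, h.unit_right, h.dual_dual, h.dual, h.supp, h.row, h.col, h.pentagon,
    h.triangle, h.rigid⟩

theorem ufc_toTV {C : SkelCat} (h : C.UFC) : C.toTV.UFC := by
  obtain ⟨o, d, h⟩ := h
  exact ⟨o, d, isUFC_toTV h⟩

theorem of_equivalent_toTV {C C' : SkelCat} (h : C.toTV.Equivalent C'.toTV) :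
    C.Equivalent C' := by
  obtain ⟨σ, U, h⟩ := h
  exact ⟨σ, U, ⟨h.supp, h.row, h.col, h.comm⟩⟩

theorem gen_toTV {C : SkelCat} {o : Fin C.r} {S : Set (Fin C.r)} {b : Fin C.r}
    (h : C.Gen o S b) : Pool.Agent.helper93.TV.SkelCat.Gen C.toTV o S b := by
  induction h with
  | unit => exact Pool.Agent.helper93.TV.SkelCat.Gen.unit
  | mul v _ h2 ih =>
    exact Pool.Agent.helper93.TV.SkelCat.Gen.mul (C := C.toTV) (o := o) (S := S) v ih h2

theorem small_toTV {C : SkelCat} {Y : ℝ} (h : C.Small Y) : C.toTV.Small Y := by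
  obtain ⟨o, d, z, ⟨st, h1⟩, h2, h3, h4, h5⟩ := h
  exact ⟨o, d, z, ⟨st, isUFC_toTV h1⟩, h2, h3, fun b => gen_toTV (h4 b), h5⟩

end SkelCat

/-- There is K such that for all M ≥ 2 and all Y at most
exp (K * (min Y (M^4) + M^(7/8)) * (log M)^3) pairwise inequivalent unitary fusion categories C
have total multiplicity at most M and satisfy Small Y: for some z ≥ 1 the simple objects of
Frobenius-Perron dimension at most z generate C and r z^4 ≤ Y, where r is the number of simple
objects of C. -/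
theorem result : ∃ K : ℝ, ∀ (M : ℕ) (Y : ℝ), 2 ≤ M → ∀ (k : ℕ) (E : Fin k → SkelCat),
    (∀ i, (E i).UFC) → (∀ i j, i ≠ j → ¬ (E i).Equivalent (E j)) → (∀ i, (E i).n ≤ M) →
    (∀ i, (E i).Small Y) →
    (k : ℝ) ≤ Real.exp (K * (min Y ((M : ℝ) ^ 4) + (M : ℝ) ^ (7 / 8 : ℝ)) *
      (Real.log M) ^ 3) := by
  obtain ⟨K, hK⟩ := Pool.Agent.helper93.TV.L3_CC3
  refine ⟨K, fun M Y hM k E hE hne hn hs => ?_⟩
  exact hK M Y hM k (fun i => (E i).toTV) (fun i => SkelCat.ufc_toTV (hE i))
    (fun i j hij h => hne i j hij (SkelCat.of_equivalent_toTV h)) hn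
    (fun i => SkelCat.small_toTV (hs i))

end Pool.Agent.Results.MP_29f1cd_al.SmallGenerators
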